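import Mathlib

set_option autoImplicit false

/-!
Monomial ideals and their symbolic powers. The lemmas up to `rank_quot` are adapted from the
library (R_pool_sql_team_39128cda, MP_9d9f8d_ag and MP_a342dd_al).
-/

namespace Pool.Agent.KS6_64.SD

open MvPolynomial

universe u

variable {σ : Type} {k : Type u} [Field k]

lemma supp_mul {f g : MvPolynomial σ k} {m : σ →₀ ℕ} (h : m ∈ (f * g).support) :
    ∃ a ∈ f.support, ∃ b ∈ g.support, a + b = m := by
  classical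
  exact Finset.mem_add.1 (support_mul f g h)

variable (k) in
/-- The monomial ideal spanned by a set of exponents. -/
noncomputable def MI (E : Set (σ →₀ ℕ)) : Ideal (MvPolynomial σ k) :=
  Ideal.span ((fun e => monomial e (1 : k)) '' E)

lemma mem_MI {E : Set (σ →₀ ℕ)} (hE : ∀ m ∈ E, ∀ m', m + m' ∈ E) {f : MvPolynomial σ k} :
    f ∈ MI k E ↔ ∀ m ∈ f.support, m ∈ E := by
  rw [MI, mem_ideal_span_monomial_image]
  refine forall₂_congr fun m _ => ⟨?_, fun h => ⟨m, h, le_rfl⟩⟩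
  rintro ⟨s, hs, hle⟩
  obtain ⟨c, rfl⟩ := le_iff_exists_add.1 hle
  exact hE _ hs _

lemma mono_mem_MI {E : Set (σ →₀ ℕ)} {m : σ →₀ ℕ} (h : m ∈ E) : monomial m (1 : k) ∈ MI k E :=
  Ideal.subset_span ⟨m, h, rfl⟩

lemma MI_mul {E E' E'' : Set (σ →₀ ℕ)} (h : ∀ m, m ∈ E'' ↔ ∃ a ∈ E, ∃ b ∈ E', a + b = m) :
    MI k E * MI k E' = MI k E'' := by
  rw [MI, MI, MI, Ideal.span_mul_span']
  congr 1
  ext f
  constructor
  · rintro ⟨_, ⟨a, ha, rfl⟩, _, ⟨b, hb, rfl⟩, rfl⟩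
    exact ⟨a + b, (h _).2 ⟨a, ha, b, hb, rfl⟩, by simp [monomial_mul]⟩
  · rintro ⟨m, hm, rfl⟩
    obtain ⟨a, ha, b, hb, rfl⟩ := (h m).1 hm
    exact ⟨_, ⟨a, ha, rfl⟩, _, ⟨b, hb, rfl⟩, by simp [monomial_mul]⟩

/-- Upward closed sets of exponents. -/
def Up (E : Set (σ →₀ ℕ)) : Prop := ∀ m ∈ E, ∀ m', m + m' ∈ E

lemma MI_union (E E' : Set (σ →₀ ℕ)) : MI k (E ∪ E') = MI k E ⊔ MI k E' := by
  rw [MI, MI, MI, Set.image_union, Ideal.span_union]

/-- Exponents of an ideal of variables. -/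
def VG (G : Finset σ) : Set (σ →₀ ℕ) := {m | ∃ g ∈ G, m g ≠ 0}

lemma VG_up (G : Finset σ) : Up (VG G) := fun m ⟨g, hg, h⟩ m' =>
  ⟨g, hg, by rw [Finsupp.add_apply]; omega⟩

lemma MI_VG (G : Finset σ) : MI k (VG G) = Ideal.span (X '' (G : Set σ)) := by
  ext f
  rw [mem_MI (VG_up G), mem_ideal_span_X_image]
  rfl

open Classical in
/-- The part of a polynomial supported on exponents with a given property. -/
noncomputable def filt (P : (σ →₀ ℕ) → Prop) (f : MvPolynomial σ k) : MvPolynomial σ k :=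
  ∑ m ∈ f.support.filter P, monomial m (coeff m f)

open Classical in
lemma coeff_filt (P : (σ →₀ ℕ) → Prop) (f : MvPolynomial σ k) (n : σ →₀ ℕ) :
    coeff n (filt P f) = if P n then coeff n f else 0 := by
  rw [filt, coeff_sum]
  simp only [coeff_monomial, Finset.sum_ite_eq', Finset.mem_filter, mem_support_iff]
  by_cases h : coeff n f = 0 <;> simp [h]

/-- The set only depends, monotonically, on the variables in `G`. -/
def Dep (G : Finset σ) (E : Set (σ →₀ ℕ)) : Prop :=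
  ∀ m ∈ E, ∀ m' : σ →₀ ℕ, (∀ g ∈ G, m g ≤ m' g) → m' ∈ E

lemma Dep.up {G : Finset σ} {E : Set (σ →₀ ℕ)} (h : Dep G E) : Up E :=
  fun m hm m' => h m hm _ fun _ _ => by simp

lemma primary {G : Finset σ} {E : Set (σ →₀ ℕ)} (hE : Dep G E) {w f : MvPolynomial σ k}
    (hw : w ∉ MI k (VG G)) (h : w * f ∈ MI k E) : f ∈ MI k E := by
  classical
  rw [mem_MI hE.up] at h ⊢
  rw [mem_MI (VG_up G)] at hw
  by_contra hf
  push Not at hw hf
  obtain ⟨a0, ha0, ha1⟩ := hw
  obtain ⟨m0, hm0, hmin⟩ := (f.support.filter (· ∉ E)).exists_min_image (fun m => ∑ g ∈ G, m g)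
    (by obtain ⟨m, h1, h2⟩ := hf; exact ⟨m, by simp [mem_support_iff.1 h1, h2]⟩)
  rw [Finset.mem_filter] at hm0
  have h1 : filt (fun a => ∀ g ∈ G, a g = 0) w ≠ 0 := fun e => by
    have := coeff_filt (fun a => ∀ g ∈ G, a g = 0) w a0
    rw [e, if_pos fun g hg => by_contra fun h => ha1 ⟨g, hg, h⟩] at this
    exact mem_support_iff.1 ha0 this.symm
  have h2 : filt (fun a => ∀ g ∈ G, a g = m0 g) f ≠ 0 := fun e => by
    have := coeff_filt (fun a => ∀ g ∈ G, a g = m0 g) f m0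
    rw [e, if_pos fun g hg => rfl] at this
    exact mem_support_iff.1 hm0.1 this.symm
  obtain ⟨n, hn⟩ := support_nonempty.2 (mul_ne_zero h1 h2)
  have hn0 : ∀ g ∈ G, n g = m0 g := by
    obtain ⟨a, ha, b, hb, rfl⟩ := supp_mul hn
    rw [mem_support_iff, coeff_filt] at ha hb
    intro g hg
    have ha' : ∀ g ∈ G, a g = 0 := by_contra fun h => ha (if_neg h)
    have hb' : ∀ g ∈ G, b g = m0 g := by_contra fun h => hb (if_neg h)
    rw [Finsupp.add_apply, ha' g hg, hb' g hg, zero_add]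
  refine hm0.2 (hE n (h n ?_) m0 fun g hg => (hn0 g hg).le)
  rw [mem_support_iff] at hn ⊢
  convert hn using 1
  rw [coeff_mul, coeff_mul]
  refine Finset.sum_congr rfl fun q hq => ?_
  have hq' : ∀ g ∈ G, q.1 g + q.2 g = m0 g := fun g hg => by
    rw [← hn0 g hg, ← Finset.HasAntidiagonal.mem_antidiagonal.1 hq, Finsupp.add_apply]
  rw [coeff_filt, coeff_filt]
  by_cases h3 : coeff q.2 f = 0
  · simp [h3]
  have h4 : q.2 ∉ E := fun h4 => hm0.2 (hE _ h4 m0 fun g hg => by have := hq' g hg; omega)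
  have h5 := hmin q.2 (by simp [h3, h4])
  have h6 : ∀ g ∈ G, q.2 g = m0 g :=
    (Finset.sum_eq_sum_iff_of_le fun g hg => by have := hq' g hg; omega).1
      (le_antisymm (Finset.sum_le_sum fun g hg => by have := hq' g hg; omega) h5)
  rw [if_pos h6, if_pos fun g hg => by have := hq' g hg; have := h6 g hg; omega]

lemma VG_dep (G : Finset σ) : Dep G (VG G) := fun m ⟨g, hg, h⟩ m' h' =>
  ⟨g, hg, by have := h' g hg; omega⟩

lemma VG_prime (G : Finset σ) : (MI k (VG G)).IsPrime := by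
  refine ⟨fun h => ?_, fun {a b} h => or_iff_not_imp_left.2 fun ha => primary (VG_dep G) ha h⟩
  obtain ⟨g, -, h1⟩ := (mem_MI (VG_up G)).1 ((Ideal.eq_top_iff_one _).1 h) 0 (by simp)
  simp at h1

lemma MI_mono {E E' : Set (σ →₀ ℕ)} (h : E ⊆ E') : MI k E ≤ MI k E' :=
  Ideal.span_mono (Set.image_mono h)

lemma X_mem_VG {G : Finset σ} {s : σ} : (X s : MvPolynomial σ k) ∈ MI k (VG G) ↔ s ∈ G := by
  classical
  rw [mem_MI (VG_up G), support_X]
  simp only [Finset.mem_singleton, forall_eq, VG, Set.mem_ofPred_eq]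
  constructor
  · rintro ⟨g, hg, h⟩
    rwa [(Finsupp.single_apply_ne_zero.1 h).1] at hg
  · exact fun h => ⟨s, h, by simp⟩

theorem symbolic [Fintype σ] {ι : Type} [Fintype ι] (G : ι → Finset σ) (E F : ι → Set (σ →₀ ℕ))
    (t M : ℕ) (h1 : ∀ e, MI k (E e) ^ t = MI k (F e)) (h2 : ∀ e, Dep (G e) (E e))
    (h2' : ∀ e, Dep (G e) (F e)) (h3 : ∀ e, ∀ g ∈ G e, Finsupp.single g M ∈ E e)
    (h4 : ∀ e, E e ⊆ VG (G e)) (h5 : ∀ e e', G e ⊆ G e' → e = e') (f : MvPolynomial σ k) :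
    f ∈ MI k {m | ∀ e, m ∈ F e} ↔ ∀ P ∈ (MI k {m | ∀ e, m ∈ E e}).minimalPrimes,
      ∃ w : MvPolynomial σ k, w ∉ P ∧ w * f ∈ MI k {m | ∀ e, m ∈ E e} ^ t := by
  classical
  have upE : Up {m | ∀ e, m ∈ E e} := fun m hm m' e => (h2 e).up m (hm e) m'
  have upF : Up {m | ∀ e, m ∈ F e} := fun m hm m' e => (h2' e).up m (hm e) m'
  have le1 : ∀ e, MI k {m | ∀ e, m ∈ E e} ≤ MI k (E e) := fun e => MI_mono fun m hm => hm e
  have le2 : ∀ e, MI k {m | ∀ e, m ∈ E e} ≤ MI k (VG (G e)) :=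
    fun e => (le1 e).trans (MI_mono (h4 e))
  have low : ∀ P : Ideal (MvPolynomial σ k), P.IsPrime → MI k {m | ∀ e, m ∈ E e} ≤ P →
      ∃ e, MI k (VG (G e)) ≤ P := by
    intro P hP hle
    have : Finset.univ.inf (fun e => MI k (E e)) ≤ P := by
      refine le_trans (fun g hg => (mem_MI upE).2 fun m hm e => ?_) hle
      exact (mem_MI (h2 e).up).1 (Finset.inf_le (f := fun e => MI k (E e)) (Finset.mem_univ e) hg)
        m hm
    obtain ⟨e, -, he⟩ := hP.inf_le'.1 this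
    refine ⟨e, ?_⟩
    rw [MI_VG, Ideal.span_le]
    rintro _ ⟨g, hg, rfl⟩
    refine hP.mem_of_pow_mem M (he ?_)
    rw [X_pow_eq_monomial]
    exact mono_mem_MI (h3 e g hg)
  constructor
  · intro hf P hP
    obtain ⟨e, he⟩ := low P hP.1.1 hP.1.2
    obtain rfl : P = MI k (VG (G e)) := le_antisymm (hP.2 ⟨VG_prime _, le2 e⟩ he) he
    set a : σ →₀ ℕ := Finsupp.equivFunOnFinite.symm fun s => if s ∈ G e then 0 else M
    have hw : (monomial a 1 : MvPolynomial σ k) ∉ MI k (VG (G e)) := by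
      intro h
      obtain ⟨g, hg, h⟩ := (mem_MI (VG_up _)).1 h a (by simp)
      simp [a, hg] at h
    refine ⟨monomial a 1 ^ t, fun h => hw ((VG_prime _).mem_of_pow_mem t h), ?_⟩
    have h6 : MI k {a} * MI k (E e) ≤ MI k {m | ∀ e, m ∈ E e} := by
      rw [MI_mul (E'' := {m | ∃ a' ∈ ({a} : Set (σ →₀ ℕ)), ∃ b ∈ E e, a' + b = m}) fun _ => Iff.rfl]
      refine MI_mono ?_
      rintro _ ⟨_, rfl, b, hb, rfl⟩ e'
      by_cases he' : e' = e
      · rw [he', add_comm]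
        exact (h2 e).up b hb _
      · obtain ⟨g, hg, hg'⟩ := Finset.not_subset.1 fun h => he' (h5 e' e h)
        refine h2 e' _ (h3 e' g hg) _ fun s _ => ?_
        rw [Finsupp.single_apply]
        split_ifs with hs
        · simp [a, ← hs, hg']
        · exact Nat.zero_le _
    refine Ideal.pow_right_mono h6 t ?_
    rw [mul_pow, h1]
    have h7 : MI k {m | ∀ e, m ∈ F e} ≤ MI k (F e) := MI_mono fun m hm => hm e
    have h8 : (monomial a 1 : MvPolynomial σ k) ∈ MI k {a} := mono_mem_MI rfl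
    exact Ideal.mul_mem_mul (Ideal.pow_mem_pow h8 t) (h7 hf)
  · intro h
    refine (mem_MI upF).2 fun m hm e => ?_
    obtain ⟨w, hw, hwf⟩ := h (MI k (VG (G e))) ⟨⟨VG_prime _, le2 e⟩, fun P hP hle => by
      obtain ⟨e', he'⟩ := low P hP.1 hP.2
      obtain rfl : e' = e := h5 e' e fun g hg => X_mem_VG.1 (hle (he' (X_mem_VG.2 hg)))
      exact he'⟩
    have := Ideal.pow_right_mono (le1 e) t hwf
    rw [h1] at this
    exact (mem_MI (h2' e).up).1 (primary (h2' e) hw this) m hm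



/-- associated primes are minimal under the hypotheses of `symbolic` -/
theorem ass_eq [Fintype σ] {ι : Type} [Fintype ι] (G : ι → Finset σ) (E : ι → Set (σ →₀ ℕ))
    (M : ℕ) (h2 : ∀ e, Dep (G e) (E e)) (h3 : ∀ e, ∀ g ∈ G e, Finsupp.single g M ∈ E e)
    (h5 : ∀ e e', G e ⊆ G e' → e = e') :
    associatedPrimes (MvPolynomial σ k) (MvPolynomial σ k ⧸ MI k {m | ∀ e, m ∈ E e}) =
      (MI k {m | ∀ e, m ∈ E e}).minimalPrimes := by
  classical
  have upE : Up {m | ∀ e, m ∈ E e} := fun m hm m' e => (h2 e).up m (hm e) m'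
  have le1 : ∀ e, MI k {m | ∀ e, m ∈ E e} ≤ MI k (E e) := fun e => MI_mono fun m hm => hm e
  have low : ∀ P : Ideal (MvPolynomial σ k), P.IsPrime → MI k {m | ∀ e, m ∈ E e} ≤ P →
      ∃ e, MI k (VG (G e)) ≤ P := by
    intro P hP hle
    have : Finset.univ.inf (fun e => MI k (E e)) ≤ P := by
      refine le_trans (fun g hg => (mem_MI upE).2 fun m hm e => ?_) hle
      exact (mem_MI (h2 e).up).1 (Finset.inf_le (f := fun e => MI k (E e)) (Finset.mem_univ e) hg)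
        m hm
    obtain ⟨e, -, he⟩ := hP.inf_le'.1 this
    refine ⟨e, ?_⟩
    rw [MI_VG, Ideal.span_le]
    rintro _ ⟨g, hg, rfl⟩
    refine hP.mem_of_pow_mem M (he ?_)
    rw [X_pow_eq_monomial]
    exact mono_mem_MI (h3 e g hg)
  refine Set.Subset.antisymm (fun P hP => ?_) (by
    simpa [Ideal.annihilator_quotient] using
      Module.associatedPrimes.minimalPrimes_annihilator_subset_associatedPrimes
        (MvPolynomial σ k) (MvPolynomial σ k ⧸ MI k {m | ∀ e, m ∈ E e}))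
  obtain ⟨hp, f, hf⟩ := isAssociatedPrime_iff.1 hP
  obtain ⟨f, rfl⟩ := Ideal.Quotient.mk_surjective f
  have hm : ∀ g, g ∈ P ↔ g * f ∈ MI k {m | ∀ e, m ∈ E e} := fun g => by
    rw [hf, Submodule.mem_colon_singleton, Submodule.mem_bot]
    exact Ideal.Quotient.eq_zero_iff_mem (a := g * f)
  obtain ⟨e, he⟩ : ∃ e, f ∉ MI k (E e) := by
    by_contra h
    push Not at h
    refine hp.ne_top ((Ideal.eq_top_iff_one _).2 ((hm 1).2 ?_))
    rw [one_mul]
    exact (mem_MI upE).2 fun m h1 e => (mem_MI (h2 e).up).1 (h e) m h1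
  have h1 : P ≤ MI k (VG (G e)) := fun g hg =>
    by_contra fun h => he (primary (h2 e) h (le1 e ((hm g).1 hg)))
  have h3' : MI k {m | ∀ e, m ∈ E e} ≤ P := fun g hg => (hm g).2 (Ideal.mul_mem_right _ _ hg)
  refine ⟨⟨hp, h3'⟩, fun Q hQ h => h1.trans ?_⟩
  obtain ⟨e', he'⟩ := low Q hQ.1 hQ.2
  obtain rfl : e' = e := h5 e' e fun g hg => X_mem_VG.1 (h1 (h (he' (X_mem_VG.2 hg))))
  exact he'

lemma rank_quot {σ : Type} {E E' : Set (σ →₀ ℕ)} (hE : Up E) (hE' : Up E') (B : Finset (σ →₀ ℕ))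
    (h : ∀ m, m ∈ B ↔ m ∈ E ∧ m ∉ E') :
    Module.finrank k (MI k E ⧸ Submodule.submoduleOf (MI k E') (MI k E)) = B.card := by
  classical
  let φ : MI k E →ₗ[k] (B → k) := LinearMap.pi fun b =>
    (lcoeff k b.1).comp ((MI k E).subtype.restrictScalars k)
  have h1 : Function.Surjective φ := by
    intro c
    refine ⟨⟨∑ b : B, monomial b.1 (c b), Ideal.sum_mem _ fun b _ => (mem_MI hE).2 fun m hm => ?_⟩,
      funext fun b => ?_⟩
    · rw [Finset.mem_singleton.1 (support_monomial_subset hm)]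
      exact ((h _).1 b.2).1
    · simp [φ, coeff_monomial]
  have h2 : (Submodule.submoduleOf (MI k E') (MI k E)).restrictScalars k = LinearMap.ker φ := by
    ext ⟨f, hf⟩
    change f ∈ MI k E' ↔ _
    rw [mem_MI hE', LinearMap.mem_ker, funext_iff]
    refine ⟨fun h3 b => ?_, fun h3 m hm => ?_⟩
    · exact by_contra fun h4 => ((h _).1 b.2).2 (h3 _ (mem_support_iff.2 h4))
    · exact by_contra fun h4 => mem_support_iff.1 hm (h3 ⟨m, (h m).2 ⟨(mem_MI hE).1 hf m hm, h4⟩⟩)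
  rw [← (Submodule.Quotient.restrictScalarsEquiv k _).finrank_eq,
    (Submodule.quotEquivOfEq _ _ h2).finrank_eq, (φ.quotKerEquivOfSurjective h1).finrank_eq]
  simp


end Pool.Agent.KS6_64.SD
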