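import Pool.Agent.KS6_64.SD.Fam

set_option autoImplicit false

namespace Pool.Agent.KS6_64.SD

open MvPolynomial Finset

/-- the multiples of `n` modulo `p` -/
def R (p n : ℕ) : Finset ℕ := (range p).image fun i => n * i % p

lemma card_R {p n : ℕ} (hp : 0 < p) : #(R p n) = p / Nat.gcd p n := by
  set g := Nat.gcd p n with hg
  have hg0 : 0 < g := Nat.gcd_pos_of_pos_left _ hp
  set d := p / g with hd
  have hpd : g * d = p := Nat.mul_div_cancel' (Nat.gcd_dvd_left p n)
  have hd0 : 0 < d := Nat.pos_of_ne_zero fun h => by rw [h] at hpd; omega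
  have hdp : d ≤ p := by rw [← hpd]; exact Nat.le_mul_of_pos_left _ hg0
  obtain ⟨t, ht⟩ : g ∣ n := Nat.gcd_dvd_right p n
  have e : R p n = (range d).image fun i => n * i % p := by
    apply Finset.Subset.antisymm
    · intro r hr
      obtain ⟨i, -, rfl⟩ := Finset.mem_image.1 hr
      refine Finset.mem_image.2 ⟨i % d, Finset.mem_range.2 (Nat.mod_lt _ hd0), ?_⟩
      have : n * i = n * (i % d) + p * (t * (i / d)) := by
        conv_lhs => rw [← Nat.mod_add_div i d]
        rw [mul_add]
        congr 1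
        rw [← hpd]
        nth_rewrite 1 [ht]
        ring
      rw [this, Nat.add_mul_mod_self_left]
    · exact Finset.image_subset_image (Finset.range_subset_range.2 hdp)
  rw [e, Finset.card_image_of_injOn, Finset.card_range]
  intro i hi j hj hij
  have h1 : n * i ≡ n * j [MOD p] := hij
  have h2 := Nat.ModEq.cancel_left_div_gcd hp h1
  have hi' := Finset.mem_range.1 (Finset.mem_coe.1 hi)
  have hj' := Finset.mem_range.1 (Finset.mem_coe.1 hj)
  exact Nat.ModEq.eq_of_lt_of_lt h2 hi' hj'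

lemma count {p : ℕ} (hp : 0 < p) (Q : Finset ℕ) (hQ : ∀ r ∈ Q, r < p) (A M : ℕ) :
    #((Ioc A (A + p * M)).filter fun c => c % p ∈ Q) = #Q * M := by
  have h1 : #((Ioc A (A + p * M)).filter fun c => c % p ∈ Q) =
      ∑ r ∈ Q, #(((Ioc A (A + p * M)).filter fun c => c % p ∈ Q).filter fun c => c % p = r) :=
    Finset.card_eq_sum_card_fiberwise fun c hc => by
      have := (Finset.mem_filter.1 (Finset.mem_coe.1 hc)).2
      exact this
  rw [h1, Finset.sum_congr rfl (g := fun _ => M), Finset.sum_const, smul_eq_mul]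
  intro r hr
  have h2 : ((Ioc A (A + p * M)).filter fun c => c % p ∈ Q).filter (fun c => c % p = r) =
      (Ioc A (A + p * M)).filter fun c => c ≡ r [MOD p] := by
    ext c
    simp only [Finset.mem_filter, and_assoc]
    refine and_congr_right fun _ => ?_
    constructor
    · rintro ⟨-, h⟩
      rw [Nat.ModEq, h, Nat.mod_eq_of_lt (hQ r hr)]
    · intro h
      rw [Nat.ModEq, Nat.mod_eq_of_lt (hQ r hr)] at h
      exact ⟨h ▸ hr, h⟩
  rw [h2]
  have h3 := Nat.Ioc_filter_modEq_card A (A + p * M) hp r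
  have hp' : (p : ℚ) ≠ 0 := by positivity
  have h4 : (((A + p * M : ℕ) : ℚ) - r) / p = ((A : ℚ) - r) / p + (M : ℕ) := by
    push_cast
    field_simp
    ring
  rw [h4, Int.floor_add_natCast] at h3
  have h5 : ⌊((A : ℚ) - r) / p⌋ + (M : ℤ) - ⌊((A : ℚ) - r) / p⌋ = M := by ring
  rw [h5] at h3
  have h6 : max (M : ℤ) 0 = M := max_eq_left (by positivity)
  rw [h6] at h3
  exact_mod_cast h3

lemma line {p D n : ℕ} (i : Fin p) {c b : ℕ} (hc : n * i ≤ c)
    (h : n * (i + p * D) ≤ c + p * b) : n * (i * (D + 1)) ≤ c + i * b := by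
  have hi := i.2.le
  by_cases hb : n * D ≤ b
  · nlinarith [Nat.mul_le_mul_left (i : ℕ) hb]
  · obtain ⟨δ, hδ⟩ := Nat.exists_eq_add_of_le (not_le.1 hb).le
    have h1 : n * (i + p * D) = n * i + p * (n * D) := by ring
    have h2 : n * (i * (D + 1)) = n * i + i * (n * D) := by ring
    rw [h1, hδ] at h
    rw [h2, hδ]
    nlinarith [Nat.mul_le_mul_right δ hi]

/-- new minimal generators of the symbolic power -/
def B (p D n : ℕ) : Set (Option (Fin p) →₀ ℕ) := {m | m ∈ E p D n ∧ m ∉ S p D n ∪ T p D n}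

lemma B_x {p D n : ℕ} {m : Option (Fin p) →₀ ℕ} (hm : m ∈ B p D n) {c : ℕ}
    (hc : m none = c + 1) : ∃ i : Fin p, ¬ (n * (i * (D + 1)) ≤ c + i * m (some i) ∧
      n * (i + p * D) ≤ c + p * m (some i)) := by
  by_contra h
  push Not at h
  refine hm.2 (Or.inr ⟨none, m - Finsupp.single none 1, fun i => ?_, ?_⟩)
  · simp only [F, Set.mem_ofPred_eq, Finsupp.tsub_apply, Finsupp.single_eq_same]
    rw [Finsupp.single_eq_of_ne (by simp), hc]
    exact h i
  · exact add_tsub_cancel_of_le (Finsupp.single_le_iff.2 (by omega))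

lemma B_y {p D n : ℕ} {m : Option (Fin p) →₀ ℕ} (hm : m ∈ B p D n) (i : Fin p) {b : ℕ}
    (hb : m (some i) = b + 1) : ¬ (n * (i * (D + 1)) ≤ m none + i * b ∧
      n * (i + p * D) ≤ m none + p * b) := by
  intro h
  refine hm.2 (Or.inr ⟨some i, m - Finsupp.single (some i) 1, fun j => ?_, ?_⟩)
  · simp only [F, Set.mem_ofPred_eq, Finsupp.tsub_apply]
    rw [Finsupp.single_eq_of_ne (show (none : Option (Fin p)) ≠ some i by simp)]
    by_cases hj : j = i
    · subst hj
      rw [Finsupp.single_eq_same, hb]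
      exact h
    · rw [Finsupp.single_eq_of_ne (by simpa using hj)]
      exact hm.1 j
  · exact add_tsub_cancel_of_le (Finsupp.single_le_iff.2 (by omega))

lemma B_le {p D n : ℕ} {m m' : Option (Fin p) →₀ ℕ} (hm : m ∈ B p D n) (hm' : m' ∈ B p D n)
    (h : m none = m' none) (i : Fin p) : m (some i) ≤ m' (some i) := by
  by_contra hlt
  obtain ⟨b, hb⟩ : ∃ b, m (some i) = b + 1 := ⟨m (some i) - 1, by omega⟩
  refine B_y hm i hb ?_
  have h1 := hm'.1 i
  have h2 : m' (some i) ≤ b := by omega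
  rw [h]
  exact ⟨h1.1.trans (by gcongr), h1.2.trans (by gcongr)⟩

lemma B_inj (p D n : ℕ) : Set.InjOn (fun m : Option (Fin p) →₀ ℕ => m none) (B p D n) := by
  intro m hm m' hm' h
  ext s
  rcases s with _ | i
  · exact h
  · exact le_antisymm (B_le hm hm' h i) (B_le hm' hm h.symm i)

/-- possible exponents of `x` -/
def U (p D n : ℕ) : Finset ℕ := range ((p - 1) * n + 1) ∪
  (Ioc ((p - 1) * n) ((p - 1) * n + p * (D * n))).filter fun c => c % p ∈ R p n

lemma B_maps (p D n : ℕ) {m : Option (Fin p) →₀ ℕ} (hm : m ∈ B p D n) : m none ∈ U p D n := by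
  by_cases hc : m none ≤ (p - 1) * n
  · exact Finset.mem_union_left _ (Finset.mem_range.2 (by omega))
  refine Finset.mem_union_right _ ?_
  obtain ⟨c, hc'⟩ : ∃ c, m none = c + 1 := ⟨m none - 1, by omega⟩
  obtain ⟨i, hi⟩ := B_x hm hc'
  have hip : (i : ℕ) ≤ p - 1 := by have := i.2; omega
  have h1 : n * i ≤ (p - 1) * n := by rw [mul_comm]; exact Nat.mul_le_mul_right _ hip
  have h2 : ¬ n * (i + p * D) ≤ c + p * m (some i) := fun h => hi ⟨line i (by omega) h, h⟩
  have h3 := (hm.1 i).2
  have h4 : m none + p * m (some i) = n * i + p * (D * n) := by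
    have : n * (i + p * D) = n * i + p * (D * n) := by ring
    omega
  rw [Finset.mem_filter, Finset.mem_Ioc]
  refine ⟨⟨by omega, by omega⟩, Finset.mem_image.2 ⟨i, Finset.mem_range.2 i.2, ?_⟩⟩
  have h5 := congrArg (· % p) h4
  simp only [Nat.add_mul_mod_self_left] at h5
  exact h5.symm

lemma B_fin (p D n : ℕ) : (B p D n).Finite :=
  Set.Finite.of_injOn (f := fun m => m none) (t := (U p D n : Set ℕ)) (fun _ hm => B_maps p D n hm)
    (B_inj p D n) (Finset.finite_toSet _)

lemma card_le {p D n : ℕ} (hp : 0 < p) :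
    #(B_fin p D n).toFinset ≤ p / Nat.gcd p n * (D * n) + (p - 1) * n + 1 := by
  have h1 : #(B_fin p D n).toFinset ≤ #(U p D n) :=
    Finset.card_le_card_of_injOn (fun m => m none)
      (fun m hm => B_maps p D n (by simpa using hm))
      (fun m hm m' hm' h => B_inj p D n (by simpa using hm) (by simpa using hm') h)
  refine h1.trans ((Finset.card_union_le _ _).trans ?_)
  rw [Finset.card_range, count hp _ (fun r hr => ?_), card_R hp]
  · omega
  · obtain ⟨i, -, rfl⟩ := Finset.mem_image.1 hr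
    exact Nat.mod_lt _ hp

/-- the least exponent of `y_i` -/
def be (p D n c i : ℕ) : ℕ := (n * (i + p * D) - c + (p - 1)) / p

lemma be_spec {p D n c i : ℕ} (hp : 0 < p) (hc : c ≤ n * (i + p * D)) :
    n * (i + p * D) ≤ c + p * be p D n c i ∧
      c + p * be p D n c i ≤ n * (i + p * D) + (p - 1) := by
  have h1 := Nat.div_add_mod (n * (i + p * D) - c + (p - 1)) p
  have h2 := Nat.mod_lt (n * (i + p * D) - c + (p - 1)) hp
  unfold be
  omega

lemma be_eq {p D n c i : ℕ} (hp : 0 < p) (hc : c ≤ n * (i + p * D)) (h : c % p = n * i % p) :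
    c + p * be p D n c i = n * (i + p * D) := by
  obtain ⟨h1, h2⟩ := be_spec hp hc
  have h3 : n * (i + p * D) ≡ c + p * be p D n c i [MOD p] := by
    rw [Nat.ModEq, Nat.add_mul_mod_self_left, h, show n * (i + p * D) = n * i + p * (n * D) by ring,
      Nat.add_mul_mod_self_left]
  have h4 := (Nat.modEq_iff_dvd' h1).1 h3
  by_contra hne
  have := Nat.le_of_dvd (by omega) h4
  omega

/-- the minimal generator with the exponent `c` of `x` -/
noncomputable def pt (p D n c : ℕ) : Option (Fin p) →₀ ℕ :=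
  Finsupp.equivFunOnFinite.symm fun s => s.elim c fun i => be p D n c i

lemma pt_none (p D n c : ℕ) : pt p D n c none = c := rfl
lemma pt_some (p D n c : ℕ) (i : Fin p) : pt p D n c (some i) = be p D n c i := rfl

lemma pt_mem {p D n c : ℕ} (hp : 2 ≤ p) (hn : 2 * p ≤ n)
    (hc : c ∈ (Ioc ((p - 1) * n) ((p - 1) * n + p * (D * n))).filter fun c => c % p ∈ R p n) :
    pt p (D + 1) n c ∈ B p (D + 1) n := by
  rw [Finset.mem_filter, Finset.mem_Ioc] at hc
  obtain ⟨⟨hc1, hc2⟩, hc3⟩ := hc
  obtain ⟨i₀, hi₀, hr⟩ := Finset.mem_image.1 hc3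
  have hp0 : 0 < p := by omega
  have hcn : c ≤ n * (0 + p * (D + 1)) := by
    obtain ⟨q, rfl⟩ : ∃ q, p = q + 1 := ⟨p - 1, by omega⟩
    rw [Nat.add_sub_cancel] at hc2
    nlinarith
  have hci : ∀ i : ℕ, c ≤ n * (i + p * (D + 1)) := fun i => hcn.trans (by gcongr; omega)
  have hE : pt p (D + 1) n c ∈ E p (D + 1) n := by
    intro i
    have h1 := (be_spec hp0 (hci i)).1
    refine ⟨?_, h1⟩
    rw [pt_none, pt_some]
    refine line i ?_ h1
    have : (i : ℕ) ≤ p - 1 := by have := i.2; omega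
    calc n * (i : ℕ) ≤ n * (p - 1) := Nat.mul_le_mul_left _ this
      _ = (p - 1) * n := mul_comm _ _
      _ ≤ c := hc1.le
  refine ⟨hE, ?_⟩
  rintro (h | ⟨s, a, ha, h⟩)
  · have h1 := S_inv hp n _ h
    rw [pt_none, pt_some, pt_some] at h1
    have h2 := (be_spec hp0 (hci 0)).2
    have h3 := (be_spec hp0 (hci 1)).2
    have e1 : n * (2 * (p * (D + 1)) + 2) = n * (0 + p * (D + 1)) + n * (1 + p * (D + 1)) + n := by
      ring
    simp only at h1
    omega
  · rcases s with _ | i
    · have h2 := be_eq hp0 (hci i₀) hr.symm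
      have h3 := (ha ⟨i₀, Finset.mem_range.1 hi₀⟩).2
      have h4 := DFunLike.congr_fun h none
      have h5 := DFunLike.congr_fun h (some ⟨i₀, Finset.mem_range.1 hi₀⟩)
      rw [Finsupp.add_apply, Finsupp.single_eq_same, pt_none] at h4
      rw [Finsupp.add_apply, Finsupp.single_eq_of_ne (by simp), pt_some, zero_add] at h5
      rw [h5] at h3
      simp only at h3
      omega
    · have h2 := (be_spec hp0 (hci i)).2
      have h3 := (ha i).2
      have h4 := DFunLike.congr_fun h none
      have h5 := DFunLike.congr_fun h (some i)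
      rw [Finsupp.add_apply, Finsupp.single_eq_of_ne (by simp), pt_none, zero_add] at h4
      rw [Finsupp.add_apply, Finsupp.single_eq_same, pt_some] at h5
      rw [← h5, ← h4] at h2
      have : p * (1 + a (some i)) = p + p * a (some i) := by ring
      omega

lemma le_card {p D n : ℕ} (hp : 2 ≤ p) (hn : 2 * p ≤ n) :
    p / Nat.gcd p n * (D * n) ≤ #(B_fin p (D + 1) n).toFinset := by
  have hp0 : 0 < p := by omega
  rw [← card_R hp0, ← count hp0 (R p n) (fun r hr => ?_) ((p - 1) * n) (D * n)]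
  · refine Finset.card_le_card_of_injOn (fun c => pt p (D + 1) n c) (fun c hc => ?_)
      (fun c _ c' _ h => ?_)
    · simpa using pt_mem hp hn (Finset.mem_coe.1 hc)
    · exact DFunLike.congr_fun h none
  · obtain ⟨i, -, rfl⟩ := Finset.mem_image.1 hr
    exact Nat.mod_lt _ hp0

end Pool.Agent.KS6_64.SD
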