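import Pool.Agent.KS6_64.SD.Base

set_option autoImplicit false

/-!
The family: `x = X none`, `y_i = X (some i)` for `i < p`; `Q_i` is the integrally closed ideal in
`x, y_i` with the vertices `(0, D + 1)`, `(i, D)`, `(i + p D, 0)`.
-/

namespace Pool.Agent.KS6_64.SD

open MvPolynomial Finset

universe u

variable {k : Type u} [Field k]

/-- exponents of `Q_i ^ n` -/
def F (p D n : ℕ) (i : Fin p) : Set (Option (Fin p) →₀ ℕ) :=
  {m | n * (i * (D + 1)) ≤ m none + i * m (some i) ∧ n * (i + p * D) ≤ m none + p * m (some i)}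

/-- exponents of the `n`-th symbolic power -/
def E (p D n : ℕ) : Set (Option (Fin p) →₀ ℕ) := {m | ∀ i, m ∈ F p D n i}

/-- the variables of `Q_i` -/
def Gv (p : ℕ) (i : Fin p) : Finset (Option (Fin p)) := {none, some i}

lemma split {p D n i c b : ℕ} (hi : i < p) (h1 : (n + 1) * (i * (D + 1)) ≤ c + i * b)
    (h2 : (n + 1) * (i + p * D) ≤ c + p * b) : ∃ c' b', c' ≤ c ∧ b' ≤ b ∧
      (1 * (i * (D + 1)) ≤ c' + i * b' ∧ 1 * (i + p * D) ≤ c' + p * b') ∧
      (n * (i * (D + 1)) ≤ (c - c') + i * (b - b') ∧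
        n * (i + p * D) ≤ (c - c') + p * (b - b')) := by
  by_cases hc : c < i
  · -- use `(0, D + 1)`
    have hb : (n + 1) * (D + 1) ≤ b := by
      by_contra hb
      have : i * (b + 1) ≤ i * ((n + 1) * (D + 1)) := Nat.mul_le_mul_left _ (by omega)
      nlinarith
    have hb' : D + 1 ≤ b := by nlinarith [Nat.zero_le (n * (D + 1))]
    obtain ⟨β, rfl⟩ := Nat.exists_eq_add_of_le hb'
    have hβ : n * (D + 1) ≤ β := by nlinarith
    refine ⟨0, D + 1, by omega, by omega, ⟨by omega, by nlinarith⟩, ?_, ?_⟩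
    · rw [Nat.add_sub_cancel_left]
      nlinarith [Nat.mul_le_mul_left i hβ]
    · rw [Nat.add_sub_cancel_left]
      nlinarith [Nat.mul_le_mul_left p hβ, Nat.mul_le_mul_left n hi.le]
  obtain ⟨γ, rfl⟩ : ∃ γ, c = i + γ := ⟨c - i, by omega⟩
  by_cases hb : D ≤ b
  · -- use `(i, D)`
    obtain ⟨β, rfl⟩ : ∃ β, b = D + β := ⟨b - D, by omega⟩
    refine ⟨i, D, by omega, by omega, ⟨by nlinarith, by omega⟩, ?_, ?_⟩
    · rw [Nat.add_sub_cancel_left, Nat.add_sub_cancel_left]
      nlinarith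
    · rw [Nat.add_sub_cancel_left, Nat.add_sub_cancel_left]
      nlinarith
  · -- use `(i + p (D - b), b)`
    obtain ⟨δ, rfl⟩ : ∃ δ, D = b + δ := ⟨D - b, by omega⟩
    obtain ⟨ε, rfl⟩ : ∃ ε, γ = p * δ + ε := ⟨γ - p * δ, by
      have : p * δ ≤ γ := by nlinarith [Nat.zero_le (n * (i + p * (b + δ)))]
      omega⟩
    have hε : n * (i + p * (b + δ)) ≤ ε := by nlinarith
    refine ⟨i + p * δ, b, by omega, le_rfl, ⟨?_, by nlinarith⟩, ?_, ?_⟩
    · nlinarith [Nat.mul_le_mul_right δ hi.le]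
    · rw [← add_assoc, Nat.add_sub_cancel_left, Nat.sub_self, mul_zero, add_zero]
      nlinarith [Nat.mul_le_mul_right (n * (b + δ)) hi.le]
    · rw [← add_assoc, Nat.add_sub_cancel_left, Nat.sub_self, mul_zero, add_zero]
      exact hε

/-- the exponent of `x ^ c y_i ^ b` -/
noncomputable def ex {p : ℕ} (i : Fin p) (c b : ℕ) : Option (Fin p) →₀ ℕ :=
  Finsupp.single none c + Finsupp.single (some i) b

lemma ex_none {p : ℕ} (i : Fin p) (c b : ℕ) : ex i c b none = c := by simp [ex]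
lemma ex_some {p : ℕ} (i : Fin p) (c b : ℕ) : ex i c b (some i) = b := by simp [ex]

lemma ex_le {p : ℕ} {i : Fin p} {c b : ℕ} {m : Option (Fin p) →₀ ℕ} (h1 : c ≤ m none)
    (h2 : b ≤ m (some i)) : ex i c b ≤ m := by
  classical
  intro s
  rcases s with _ | j
  · rwa [ex_none]
  · by_cases h : i = j
    · subst h
      rwa [ex_some]
    · simp [ex, h]

lemma F_dep (p D n : ℕ) (i : Fin p) : Dep (Gv p i) (F p D n i) := by
  intro m hm m' h
  have h0 := h none (by simp [Gv])
  have h1 := h (some i) (by simp [Gv])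
  exact ⟨hm.1.trans (by gcongr), hm.2.trans (by gcongr)⟩

lemma F_pow (p D : ℕ) (i : Fin p) : ∀ n, MI k (F p D 1 i) ^ n = MI k (F p D n i)
  | 0 => by
    rw [pow_zero, Ideal.one_eq_top, eq_comm, Ideal.eq_top_iff_one]
    exact mono_mem_MI (m := 0) (by simp [F])
  | n + 1 => by
    rw [pow_succ, F_pow p D i n]
    refine MI_mul fun m => ⟨fun h => ?_, ?_⟩
    · obtain ⟨c', b', h1, h2, h3, h4⟩ := split i.2 h.1 h.2
      refine ⟨m - ex i c' b', ?_, ex i c' b', ?_, tsub_add_cancel_of_le (ex_le h1 h2)⟩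
      · simp only [F, Set.mem_ofPred_eq, Finsupp.tsub_apply, ex_none, ex_some]
        exact h4
      · simp only [F, Set.mem_ofPred_eq, ex_none, ex_some]
        exact h3
    · rintro ⟨a, ha, b, hb, rfl⟩
      simp only [F, Set.mem_ofPred_eq, Finsupp.add_apply] at ha hb ⊢
      constructor <;> nlinarith [ha.1, ha.2, hb.1, hb.2]

lemma E_up (p D n : ℕ) : Up (E p D n) := fun m hm m' i => (F_dep p D n i).up m (hm i) m'

lemma F_single {p D : ℕ} (hD : 1 ≤ D) (i : Fin p) (g : Option (Fin p)) (hg : g ∈ Gv p i) :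
    Finsupp.single g (p * (D + 1)) ∈ F p D 1 i := by
  have hi := i.2
  have hp : 1 ≤ p := by omega
  simp only [Gv, Finset.mem_insert, Finset.mem_singleton] at hg
  rcases hg with rfl | rfl
  · simp only [F, Set.mem_ofPred_eq, Finsupp.single_eq_same, one_mul]
    rw [Finsupp.single_eq_of_ne (by simp)]
    constructor <;> nlinarith
  · simp only [F, Set.mem_ofPred_eq, Finsupp.single_eq_same, one_mul]
    rw [Finsupp.single_eq_of_ne (by simp)]
    constructor
    · have : D + 1 ≤ p * (D + 1) := Nat.le_mul_of_pos_left _ hp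
      nlinarith [Nat.mul_le_mul_left (i : ℕ) this]
    · have : p * (D + 1) ≤ p * (p * (D + 1)) := Nat.le_mul_of_pos_left _ hp
      nlinarith

lemma F_sub {p D : ℕ} (hD : 1 ≤ D) (i : Fin p) : F p D 1 i ⊆ VG (Gv p i) := by
  intro m hm
  by_contra h
  have h0 : m none = 0 := by
    by_contra h0
    exact h ⟨none, by simp [Gv], h0⟩
  have h1 : m (some i) = 0 := by
    by_contra h0
    exact h ⟨some i, by simp [Gv], h0⟩
  have h2 := hm.2
  rw [h0, h1] at h2
  have hi := i.2
  have : 0 < p * D := Nat.mul_pos (by omega) (by omega)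
  omega

lemma Gv_inj {p : ℕ} (i j : Fin p) (h : Gv p i ⊆ Gv p j) : i = j := by
  have := h (show some i ∈ Gv p i by simp [Gv])
  simpa [Gv] using this

/-- decomposable exponents: exponents of `I ^ n` -/
def S (p D : ℕ) : ℕ → Set (Option (Fin p) →₀ ℕ)
  | 0 => Set.univ
  | n + 1 => {m | ∃ a ∈ S p D n, ∃ b ∈ E p D 1, a + b = m}

lemma S_up (p D : ℕ) : ∀ n, Up (S p D n)
  | 0 => fun _ _ _ => trivial
  | n + 1 => by
    rintro m ⟨a, ha, b, hb, rfl⟩ m'
    exact ⟨a, ha, b + m', E_up p D 1 b hb m', by rw [add_assoc]⟩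

lemma pow_eq (p D : ℕ) : ∀ n, MI k (E p D 1) ^ n = MI k (S p D n)
  | 0 => by
    rw [pow_zero, Ideal.one_eq_top, eq_comm, Ideal.eq_top_iff_one]
    exact mono_mem_MI (m := 0) trivial
  | n + 1 => by
    rw [pow_succ, pow_eq p D n]
    exact MI_mul fun m => Iff.rfl

/-- exponents of the product with the maximal ideal -/
def T (p D n : ℕ) : Set (Option (Fin p) →₀ ℕ) :=
  {m | ∃ s a, a ∈ E p D n ∧ Finsupp.single s 1 + a = m}

lemma T_up (p D n : ℕ) : Up (T p D n) := by
  rintro m ⟨s, a, ha, rfl⟩ m'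
  exact ⟨s, a + m', E_up p D n a ha m', by rw [add_assoc]⟩

lemma mul_eq (p D n : ℕ) : Ideal.span (Set.range X) * MI k (E p D n) = MI k (T p D n) := by
  rw [show (Ideal.span (Set.range X) : Ideal (MvPolynomial (Option (Fin p)) k)) =
    MI k (Set.range fun i => Finsupp.single i 1) by rw [MI, ← Set.range_comp]; rfl]
  refine MI_mul fun m => ⟨?_, ?_⟩
  · rintro ⟨i, a, h, rfl⟩
    exact ⟨_, ⟨i, rfl⟩, a, h, rfl⟩
  · rintro ⟨_, ⟨i, rfl⟩, a, h, rfl⟩
    exact ⟨i, a, h, rfl⟩

lemma union_up (p D n : ℕ) : Up (S p D n ∪ T p D n) := by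
  rintro m (h | h) m'
  · exact Or.inl (S_up p D n m h m')
  · exact Or.inr (T_up p D n m h m')

/-- the invariant of products of generators -/
lemma S_inv {p D : ℕ} (hp : 2 ≤ p) : ∀ n, ∀ m ∈ S p D n,
    n * (2 * (p * D) + 2) ≤ 2 * m none + p * m (some ⟨0, by omega⟩) + p * m (some ⟨1, by omega⟩)
  | 0 => fun m _ => by simp
  | n + 1 => by
    rintro m ⟨a, ha, b, hb, rfl⟩
    have h1 := S_inv hp n a ha
    have h2 := (hb ⟨0, by omega⟩).2
    have h3 := (hb ⟨1, by omega⟩).2
    simp only [Finsupp.add_apply]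
    simp only [zero_add, one_mul] at h2 h3
    have h4 : 2 * (p * D) + 2 ≤ 2 * b none + p * b (some ⟨0, by omega⟩) +
        p * b (some ⟨1, by omega⟩) := by
      by_contra h4
      have e1 : p * D = b none + p * b (some ⟨0, by omega⟩) := by omega
      have e2 : 1 + p * D = b none + p * b (some ⟨1, by omega⟩) := by omega
      have e3 : (1 + b none + p * b (some ⟨0, by omega⟩)) % p =
          (b none + p * b (some ⟨1, by omega⟩)) % p := by
        rw [← e2, e1, add_assoc]
      rw [Nat.add_mul_mod_self_left, Nat.add_mul_mod_self_left] at e3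
      have e4 : (1 : ℕ) ≡ 0 [MOD p] := by
        have : 1 + b none ≡ 0 + b none [MOD p] := by rw [zero_add]; exact e3
        exact Nat.ModEq.add_right_cancel' _ this
      have := Nat.modEq_zero_iff_dvd.1 e4
      have := Nat.le_of_dvd one_pos this
      omega
    nlinarith

end Pool.Agent.KS6_64.SD
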