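import Mathlib

set_option autoImplicit false

namespace Pool.Agent.KS6_64.SD

open Polynomial Filter



lemma poly_lin (P : ℚ[X]) (a b c : ℚ) (ha : 0 ≤ a)
    (h : ∀ N : ℕ, ∃ n : ℕ, N ≤ n ∧ a * n ≤ P.eval (n : ℚ) ∧ P.eval (n : ℚ) ≤ b * n + c) :
    P.natDegree ≤ 1 ∧ a ≤ P.coeff 1 ∧ P.coeff 1 ≤ b := by
  have hdeg : P.natDegree ≤ 1 := by
    by_contra hd
    have hd' : 2 ≤ P.natDegree := by omega
    have hP0 : P ≠ 0 := by
      rintro rfl
      simp at hd
    have hPd : (2 : ℕ) ≤ P.degree := by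
      rw [Polynomial.degree_eq_natDegree hP0]
      exact_mod_cast hd'
    have hlt : (C b * X + C c : ℚ[X]).degree < P.degree :=
      lt_of_le_of_lt Polynomial.degree_linear_le (lt_of_lt_of_le (by norm_num) hPd)
    have hR := Polynomial.degree_sub_eq_left_of_degree_lt hlt
    have hlc := Polynomial.leadingCoeff_sub_of_degree_lt hlt
    rcases lt_or_ge 0 P.leadingCoeff with hpos | hneg
    · have h1 : Tendsto (fun x => (P - (C b * X + C c)).eval x) atTop atTop :=
        Polynomial.tendsto_atTop_of_leadingCoeff_nonneg _ (by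
          rw [hR]; exact lt_of_lt_of_le (by norm_num) hPd) (by rw [hlc]; exact hpos.le)
      have h2 := (h1.comp (tendsto_natCast_atTop_atTop (R := ℚ))).eventually_gt_atTop 0
      obtain ⟨N, hN⟩ := eventually_atTop.1 h2
      obtain ⟨n, hn, -, h3⟩ := h N
      have h4 := hN n hn
      simp only [Function.comp_apply, eval_sub, eval_add, eval_mul, eval_C, eval_X] at h4
      linarith
    · have hne : P.leadingCoeff < 0 :=
        lt_of_le_of_ne hneg (Polynomial.leadingCoeff_ne_zero.2 hP0)
      have h1 : Tendsto (fun x => P.eval x) atTop atBot :=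
        Polynomial.tendsto_atBot_of_leadingCoeff_nonpos _
          (lt_of_lt_of_le (by norm_num) hPd) hne.le
      have h2 := (h1.comp (tendsto_natCast_atTop_atTop (R := ℚ))).eventually_lt_atBot 0
      obtain ⟨N, hN⟩ := eventually_atTop.1 h2
      obtain ⟨n, hn, h3, -⟩ := h N
      have h4 := hN n hn
      simp only [Function.comp_apply] at h4
      have : 0 ≤ a * n := by positivity
      linarith
  have hev : ∀ x : ℚ, P.eval x = P.coeff 1 * x + P.coeff 0 := fun x => by
    conv_lhs => rw [Polynomial.eq_X_add_C_of_natDegree_le_one hdeg]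
    simp
  refine ⟨hdeg, ?_, ?_⟩
  · by_contra hlt
    push Not at hlt
    obtain ⟨N, hN⟩ := exists_nat_gt (P.coeff 0 / (a - P.coeff 1))
    obtain ⟨n, hn, h1, -⟩ := h N
    rw [hev] at h1
    have h2 : 0 < a - P.coeff 1 := by linarith
    rw [div_lt_iff₀ h2] at hN
    have h3 : (N : ℚ) * (a - P.coeff 1) ≤ n * (a - P.coeff 1) :=
      mul_le_mul_of_nonneg_right (by exact_mod_cast hn) h2.le
    nlinarith
  · by_contra hlt
    push Not at hlt
    obtain ⟨N, hN⟩ := exists_nat_gt ((c - P.coeff 0) / (P.coeff 1 - b))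
    obtain ⟨n, hn, -, h1⟩ := h N
    rw [hev] at h1
    have h2 : 0 < P.coeff 1 - b := by linarith
    rw [div_lt_iff₀ h2] at hN
    have h3 : (N : ℚ) * (P.coeff 1 - b) ≤ n * (P.coeff 1 - b) :=
      mul_le_mul_of_nonneg_right (by exact_mod_cast hn) h2.le
    nlinarith


end Pool.Agent.KS6_64.SD
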